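import Pool.Agent.helper99.EP.Spec
set_option autoImplicit false
namespace Pool.Agent.EP
open Finset Pool.Agent.helper85.FC Pool.Agent.OM Pool.Agent.helper11.TX Pool.Agent.AT

theorem EVB_SS (a b : ℕ) (c : ℤ) : 0 ≤ SS a b c := by
  unfold SS
  refine Finset.prod_nonneg fun l hl => ?_
  rw [Finset.mem_filter] at hl
  have h1 : l.Prime := Nat.prime_of_mem_primeFactors hl.1
  have h2 : 3 ≤ l := by
    have h3 := h1.two_le
    have h4 := hl.2
    omega
  have h5 : (3 : ℝ) ≤ l := by exact_mod_cast h2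
  exact div_nonneg (by linarith) (by linarith)

theorem EVB_Ms (P : ℕ → ℕ → ℤ → Prop) (a b X : ℕ) : 0 ≤ Ms P a b X := by
  unfold Ms
  exact Finset.sum_nonneg fun c _ => EVB_SS a b c

theorem EVB_mono (δ δ' : ℝ) (h : δ ≤ δ') (s t : ℕ) (hU : UQ δ' s t) : UQ δ s t := by
  intro X₀
  obtain ⟨X, hX, h1⟩ := hU X₀
  exact ⟨X, hX, (mul_le_mul_of_nonneg_right h (EVB_Ms _ _ _ _)).trans h1⟩

theorem EVB (hMXC : MXC_stmt) (hUQS : UQS_stmt) (hUQC : UQC_stmt) : EVB_stmt := by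
  intro hD
  obtain ⟨hs1, hs2, hs3⟩ := hUQS
  constructor
  · intro ε hε
    obtain ⟨ε', he1, he2, he3⟩ : ∃ ε' : ℝ, 0 < ε' ∧ ε' ≤ ε ∧ ε' ≤ 1 / 6 :=
      ⟨min ε (1 / 6), lt_min hε (by norm_num), min_le_left _ _, min_le_right _ _⟩
    obtain ⟨k, hk⟩ := exists_nat_ge (1 / ε')
    obtain ⟨S, -, hS1, hS2⟩ := hMXC k (UQ (1 / 3 - ε')) (hs1 _) (fun s hs => hs3 hD _ (by linarith) (by linarith) s hs)
      (fun c s t hc _ _ h => (hs2 _ c s t hc).1 h) (fun X hX hk2 => by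
        have h1 : (k : ℝ) + 1 ≤ #X := by exact_mod_cast hk2
        have h2 : 1 ≤ (k : ℝ) * ε' := by
          rw [div_le_iff₀ he1] at hk
          exact hk
        have h3 : ((k : ℝ) + 1) * ε' ≤ #X * ε' := mul_le_mul_of_nonneg_right h1 he1.le
        refine hUQC hD _ X (by linarith) hX ?_ (by omega)
        nlinarith)
    refine ⟨S, hS1, fun a b ha hb => ?_⟩
    obtain ⟨s, hs, h4⟩ := hS2 a b ha hb
    exact ⟨s, hs, EVB_mono _ _ (by linarith) _ _ h4⟩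
  · exact hMXC 3 (UQ (1 / 10)) (hs1 _) (fun s hs => hs3 hD _ (by norm_num) (by norm_num) s hs)
      (fun c s t hc _ _ h => (hs2 _ c s t hc).1 h) (fun X hX hk2 => by
        obtain ⟨Y, hY1, hY2⟩ := Finset.exists_subset_card_eq (s := X) (n := 4) (by omega)
        obtain ⟨s, hs, t, ht, h1, h2⟩ := hUQC hD (1 / 10) Y (by norm_num) (fun s hs => hX s (hY1 hs))
          (by rw [hY2]; norm_num) (by omega)
        exact ⟨s, hY1 hs, t, hY1 ht, h1, h2⟩)

end Pool.Agent.EP
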