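import Pool.Agent.helper7.EP.SpecL
import Pool.Agent.helper47.RA.Num

/-!
# Project ep: (MP_ebc808_nt), module FIN: the theorem from LOW and EXC
-/

set_option autoImplicit false

open Finset
open scoped Real

noncomputable section

namespace Pool.Agent.EP

/-- the choice of `a` -/
theorem FIN_a (X Z : ℕ) (hX : 1 ≤ X) (hZ : 256 * X ≤ Z) :
    ∃ a : ℕ, 256 * 4 ^ a * X ≤ Z ∧ Z < 1024 * 4 ^ a * X := by
  have hpos : 0 < 256 * X := by omega
  have hq : Z / (256 * X) ≠ 0 := by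
    have : 1 ≤ Z / (256 * X) := (Nat.one_le_div_iff hpos).mpr hZ
    omega
  refine ⟨Nat.log 4 (Z / (256 * X)), ?_, ?_⟩
  · have h1 : 4 ^ Nat.log 4 (Z / (256 * X)) ≤ Z / (256 * X) := Nat.pow_log_le_self 4 hq
    have h2 : 4 ^ Nat.log 4 (Z / (256 * X)) * (256 * X) ≤ Z := (Nat.le_div_iff_mul_le hpos).mp h1
    calc 256 * 4 ^ Nat.log 4 (Z / (256 * X)) * X
        = 4 ^ Nat.log 4 (Z / (256 * X)) * (256 * X) := by ring
      _ ≤ Z := h2
  · have h1 : Z / (256 * X) < 4 ^ (Nat.log 4 (Z / (256 * X)) + 1) :=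
      Nat.lt_pow_succ_log_self (by norm_num) _
    have h2 : Z < 4 ^ (Nat.log 4 (Z / (256 * X)) + 1) * (256 * X) :=
      (Nat.div_lt_iff_lt_mul hpos).mp h1
    calc Z < 4 ^ (Nat.log 4 (Z / (256 * X)) + 1) * (256 * X) := h2
      _ = 1024 * 4 ^ Nat.log 4 (Z / (256 * X)) * X := by rw [pow_succ]; ring

/-- the final inequality -/
theorem FIN_contra (ε C u x' z R s1 s2 D : ℝ) (hε : 0 < ε) (hε1 : ε ≤ 1 / 100) (hC : 1 ≤ C)
    (hu : 4 ≤ u) (hx0 : 0 < x') (hx1 : u / 1024 < x' ^ 2) (hx2 : x' ^ 2 ≤ u / 256)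
    (hR : R ≤ Real.sqrt (8 * x' + 1)) (hs1 : s1 < u ^ (1 / 4 - ε)) (hs10 : 0 ≤ s1)
    (hs2 : s2 < u ^ (1 / 2 - ε)) (hs20 : 0 ≤ s2) (hz0 : 0 ≤ z) (hz : z ≤ u)
    (hD : D ≤ C * (8664 * z) ^ (ε / 10))
    (hmain : x' ^ (1 - ε / 10) ≤ (R + 1) * s1 + 2 * D * s2)
    (hbig : 32 * (2 + 17328 * C) < u ^ (17 * ε / 20)) : False := by
  have hu0 : 0 < u := by linarith
  have hu1 : 1 ≤ u := by linarith
  set r : ℝ := u ^ (1 / 2 : ℝ) with hr
  have hr0 : 0 < r := by positivity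
  have hr2 : r ^ 2 = u := by
    rw [hr, ← Real.rpow_natCast, ← Real.rpow_mul hu0.le]; norm_num
  have hr22 : 2 ≤ r := by nlinarith
  have hxr1 : r / 32 < x' := by
    refine lt_of_pow_lt_pow_left₀ 2 hx0.le ?_
    calc (r / 32) ^ 2 = u / 1024 := by rw [div_pow, hr2]; norm_num
      _ < x' ^ 2 := hx1
  have hxr2 : x' ≤ r / 16 := by
    refine le_of_sq_le_sq ?_ (by positivity)
    calc x' ^ 2 ≤ u / 256 := hx2
      _ = (r / 16) ^ 2 := by rw [div_pow, hr2]; norm_num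
  set q : ℝ := u ^ (1 / 4 : ℝ) with hq
  have hq0 : 0 < q := by positivity
  have hq1 : 1 ≤ q := Real.one_le_rpow hu1 (by norm_num)
  have hq2 : q ^ 2 = r := by
    rw [hq, hr, ← Real.rpow_natCast, ← Real.rpow_mul hu0.le]; norm_num
  have hR2 : R + 1 ≤ 2 * q := by
    have h1 : Real.sqrt (8 * x' + 1) ≤ q := by
      rw [← Real.sqrt_sq hq0.le, hq2]
      exact Real.sqrt_le_sqrt (by linarith)
    linarith
  set t : ℝ := u ^ (1 / 2 - ε + ε / 10) with ht
  have ht0 : 0 < t := by positivity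
  have h3 : (R + 1) * s1 ≤ 2 * t := by
    calc (R + 1) * s1 ≤ 2 * q * s1 := mul_le_mul_of_nonneg_right hR2 hs10
      _ ≤ 2 * q * u ^ (1 / 4 - ε) := mul_le_mul_of_nonneg_left hs1.le (by positivity)
      _ = 2 * u ^ (1 / 2 - ε) := by
          rw [hq, mul_assoc, ← Real.rpow_add hu0]
          congr 2
          ring
      _ ≤ 2 * t := by
          refine mul_le_mul_of_nonneg_left ?_ (by norm_num)
          exact Real.rpow_le_rpow_of_exponent_le hu1 (by linarith)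
  have h4 : D ≤ C * (8664 * u ^ (ε / 10)) := by
    refine hD.trans (mul_le_mul_of_nonneg_left ?_ (by linarith))
    calc (8664 * z) ^ (ε / 10) ≤ (8664 * u) ^ (ε / 10) :=
          Real.rpow_le_rpow (by positivity) (by linarith) (by linarith)
      _ = 8664 ^ (ε / 10) * u ^ (ε / 10) := Real.mul_rpow (by norm_num) hu0.le
      _ ≤ 8664 ^ (1 : ℝ) * u ^ (ε / 10) := by
          refine mul_le_mul_of_nonneg_right ?_ (by positivity)
          exact Real.rpow_le_rpow_of_exponent_le (by norm_num) (by linarith)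
      _ = 8664 * u ^ (ε / 10) := by rw [Real.rpow_one]
  have h5 : 2 * D * s2 ≤ 17328 * C * t := by
    calc 2 * D * s2 ≤ 2 * (C * (8664 * u ^ (ε / 10))) * s2 :=
          mul_le_mul_of_nonneg_right (by linarith) hs20
      _ ≤ 2 * (C * (8664 * u ^ (ε / 10))) * u ^ (1 / 2 - ε) :=
          mul_le_mul_of_nonneg_left hs2.le (by positivity)
      _ = 17328 * C * (u ^ (1 / 2 - ε) * u ^ (ε / 10)) := by ring
      _ = 17328 * C * t := by rw [ht, ← Real.rpow_add hu0]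
  have h6 : u ^ (1 / 2 - ε / 20) / 32 ≤ x' ^ (1 - ε / 10) := by
    calc u ^ (1 / 2 - ε / 20) / 32 = u ^ (1 / 2 - ε / 20) / 32 ^ (1 : ℝ) := by rw [Real.rpow_one]
      _ ≤ u ^ (1 / 2 - ε / 20) / 32 ^ (1 - ε / 10) := by
          refine div_le_div_of_nonneg_left (by positivity) (by positivity) ?_
          exact Real.rpow_le_rpow_of_exponent_le (by norm_num) (by linarith)
      _ = (r / 32) ^ (1 - ε / 10) := by
          rw [Real.div_rpow hr0.le (by norm_num), hr, ← Real.rpow_mul hu0.le]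
          congr 2
          ring
      _ ≤ x' ^ (1 - ε / 10) := Real.rpow_le_rpow (by positivity) hxr1.le (by linarith)
  have h7 : u ^ (1 / 2 - ε / 20) = u ^ (17 * ε / 20) * t := by
    rw [ht, ← Real.rpow_add hu0]
    congr 1
    ring
  have h8 : u ^ (17 * ε / 20) * t ≤ 32 * (2 + 17328 * C) * t := by
    rw [← h7]
    have : u ^ (1 / 2 - ε / 20) / 32 ≤ (2 + 17328 * C) * t := by
      calc u ^ (1 / 2 - ε / 20) / 32 ≤ x' ^ (1 - ε / 10) := h6
        _ ≤ (R + 1) * s1 + 2 * D * s2 := hmain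
        _ ≤ (2 + 17328 * C) * t := by linarith
    linarith
  have h9 := le_of_mul_le_mul_right h8 ht0
  linarith

/-- monotonicity of `sE` -/
theorem FIN_sE (X Y : ℕ) (h : X ≤ Y) : sE X ≤ sE Y := by
  unfold sE
  refine Finset.card_le_card fun n hn => ?_
  simp only [Finset.mem_filter, Finset.mem_range] at hn ⊢
  exact ⟨by omega, hn.2⟩

theorem FIN_core (hL : LOW_stmt) (hE : EXC_stmt) (ε : ℝ) (hε : 0 < ε) (hε1 : ε ≤ 1 / 100) :
    ∃ X₀ : ℕ, ∀ X Z : ℕ, X₀ ≤ X → (X : ℝ) ^ (1 + ε) ≤ Z → Z ≤ X ^ 3 →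
      ((X : ℝ) * Z) ^ (1 / 4 - ε) ≤ sE X ∨ ((X : ℝ) * Z) ^ (1 / 2 - ε) ≤ sE Z := by
  obtain ⟨C, hC1, hC⟩ := Pool.Agent.helper47.RA.card_divisors_le (ε / 10) (by linarith)
  obtain ⟨X₁, hX₁⟩ := hL (ε / 10) (by linarith)
  have ht : Filter.Tendsto (fun n : ℕ => (n : ℝ) ^ (3 * ε / 10)) Filter.atTop Filter.atTop :=
    (tendsto_rpow_atTop (by linarith)).comp tendsto_natCast_atTop_atTop
  have hev := (ht.eventually_gt_atTop (max 256 (32 * (2 + 17328 * C)))).and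
    (Filter.eventually_ge_atTop (max 4 X₁))
  obtain ⟨X₀, hX₀⟩ := Filter.eventually_atTop.mp hev
  refine ⟨X₀, fun X Z hX h3 hZ3 => ?_⟩
  obtain ⟨hb, hXX⟩ := hX₀ X hX
  have hX4 : 4 ≤ X := (le_max_left _ _).trans hXX
  have hXX₁ : X₁ ≤ X := (le_max_right _ _).trans hXX
  have hb1 : (256 : ℝ) < (X : ℝ) ^ (3 * ε / 10) := (le_max_left _ _).trans_lt hb
  have hb2 : 32 * (2 + 17328 * C) < (X : ℝ) ^ (3 * ε / 10) := (le_max_right _ _).trans_lt hb
  set x : ℝ := (X : ℝ) with hx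
  set z : ℝ := (Z : ℝ) with hz
  have hx4 : (4 : ℝ) ≤ x := by rw [hx]; exact_mod_cast hX4
  have hx0 : 0 < x := by linarith
  have hx1 : 1 ≤ x := by linarith
  have hxe : (256 : ℝ) < x ^ ε :=
    hb1.trans_le (Real.rpow_le_rpow_of_exponent_le hx1 (by linarith))
  have h256 : 256 * X ≤ Z := by
    have h1 : 256 * x ≤ z := by
      calc 256 * x ≤ x ^ ε * x := mul_le_mul_of_nonneg_right hxe.le hx0.le
        _ = x ^ (1 + ε) := by rw [Real.rpow_add hx0, Real.rpow_one]; ring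
        _ ≤ z := h3
    rw [hx, hz] at h1
    exact_mod_cast h1
  obtain ⟨a, ha1, ha2⟩ := FIN_a X Z (by omega) h256
  set A : ℝ := (2 : ℝ) ^ a with hA
  have hA0 : 0 < A := by positivity
  have h4a : ((4 : ℝ) ^ a) = A ^ 2 := by
    rw [hA, ← pow_mul, mul_comm a 2, pow_mul]; norm_num
  have hz1 : 256 * A ^ 2 * x ≤ z := by
    rw [← h4a]
    have : ((256 * 4 ^ a * X : ℕ) : ℝ) ≤ (Z : ℝ) := by exact_mod_cast ha1
    push_cast at this
    exact this
  have hz2 : z < 1024 * A ^ 2 * x := by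
    rw [← h4a]
    have : (Z : ℝ) < ((1024 * 4 ^ a * X : ℕ) : ℝ) := by exact_mod_cast ha2
    push_cast at this
    exact this
  have hz3 : z ≤ x ^ 3 := by
    have : (Z : ℝ) ≤ ((X ^ 3 : ℕ) : ℝ) := by exact_mod_cast hZ3
    push_cast at this
    exact this
  -- `x ^ (ε / 2) < 32 A`
  have hhalf : x ^ (ε / 2) < 32 * A := by
    refine lt_of_pow_lt_pow_left₀ 2 (by positivity) ?_
    have e1 : (x ^ (ε / 2)) ^ 2 = x ^ ε := by
      rw [← Real.rpow_natCast, ← Real.rpow_mul hx0.le]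
      congr 1
      push_cast
      ring
    rw [e1]
    have e2 : x ^ ε * x < 1024 * A ^ 2 * x := by
      calc x ^ ε * x = x ^ (1 + ε) := by rw [Real.rpow_add hx0, Real.rpow_one]; ring
        _ ≤ z := h3
        _ < 1024 * A ^ 2 * x := hz2
    have e3 := lt_of_mul_lt_mul_right e2 hx0.le
    calc x ^ ε < 1024 * A ^ 2 := e3
      _ = (32 * A) ^ 2 := by ring
  have h8A : 8 < A := by
    have : (256 : ℝ) < 32 * A := by
      calc (256 : ℝ) < x ^ (3 * ε / 10) := hb1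
        _ ≤ x ^ (ε / 2) := Real.rpow_le_rpow_of_exponent_le hx1 (by linarith)
        _ < 32 * A := hhalf
    linarith
  have ha3 : 3 ≤ a := by
    by_contra hcon
    have h1 : a ≤ 3 := by omega
    have h2 : A ≤ 2 ^ 3 := by
      rw [hA]; exact pow_le_pow_right₀ (by norm_num) h1
    linarith
  have hsm : x ^ (ε / 5) ≤ A := by
    have e1 : x ^ (ε / 5) * x ^ (3 * ε / 10) = x ^ (ε / 2) := by
      rw [← Real.rpow_add hx0]
      congr 1
      ring
    have e2 : x ^ (ε / 5) * 256 ≤ 32 * A := by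
      calc x ^ (ε / 5) * 256 ≤ x ^ (ε / 5) * x ^ (3 * ε / 10) :=
            mul_le_mul_of_nonneg_left hb1.le (by positivity)
        _ = x ^ (ε / 2) := e1
        _ ≤ 32 * A := hhalf.le
    have e3 : 0 < x ^ (ε / 5) := by positivity
    linarith
  -- `16 A ≤ x`
  have h16A : 16 * A ≤ x := by
    refine le_of_sq_le_sq ?_ hx0.le
    have : 256 * A ^ 2 * x ≤ x ^ 2 * x := by
      calc 256 * A ^ 2 * x ≤ z := hz1
        _ ≤ x ^ 3 := hz3
        _ = x ^ 2 * x := by ring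
    have h1 := le_of_mul_le_mul_right this hx0
    calc (16 * A) ^ 2 = 256 * A ^ 2 := by ring
      _ ≤ x ^ 2 := h1
  have h16N : 16 * 2 ^ a ≤ X := by
    have : ((16 * 2 ^ a : ℕ) : ℝ) ≤ (X : ℝ) := by push_cast; exact h16A
    exact_mod_cast this
  have hXp : ((2 ^ a * X : ℕ) : ℝ) = A * x := by push_cast; rfl
  set x' : ℝ := A * x with hx'
  have hx'0 : 0 < x' := by positivity
  -- the parity
  obtain ⟨e, he2, hek⟩ : ∃ e : ℕ, e < 2 ∧ ((e : ℕ) : ZMod 2) ≠ kap a := by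
    by_cases h : kap a = 0
    · exact ⟨1, by norm_num, by rw [h]; decide⟩
    · exact ⟨0, by norm_num, by rw [Nat.cast_zero]; exact fun h' => h h'.symm⟩
  have hlow := hX₁ (2 ^ a * X) a e
    (by
      calc X₁ ≤ X := hXX₁
        _ ≤ 2 ^ a * X := Nat.le_mul_of_pos_left X (by positivity))
    (by
      rw [hXp]
      calc x' ^ (ε / 10) ≤ (x ^ 2) ^ (ε / 10) := by
            refine Real.rpow_le_rpow hx'0.le ?_ (by linarith)
            have : A ≤ x := by linarith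
            calc x' = A * x := rfl
              _ ≤ x * x := mul_le_mul_of_nonneg_right this hx0.le
              _ = x ^ 2 := by ring
        _ = x ^ (ε / 5) := by
            rw [← Real.rpow_natCast, ← Real.rpow_mul hx0.le]
            congr 1
            push_cast
            ring
        _ ≤ A := hsm)
    (by
      calc 16 * 4 ^ a = 2 ^ a * (16 * 2 ^ a) := by
            rw [show (4 : ℕ) = 2 * 2 from rfl, mul_pow]; ring
        _ ≤ 2 ^ a * X := Nat.mul_le_mul_left _ h16N)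
    he2
  set D : ℕ := ⌊C * (8664 * z) ^ (ε / 10)⌋₊ with hD
  have hz0 : 0 ≤ z := by rw [hz]; positivity
  have hDle : (D : ℝ) ≤ C * (8664 * z) ^ (ε / 10) := Nat.floor_le (by positivity)
  have h4Z : 4 ^ a * X ≤ Z := by
    calc 4 ^ a * X ≤ 256 * 4 ^ a * X := by
          rw [mul_assoc]; exact Nat.le_mul_of_pos_left _ (by norm_num)
      _ ≤ Z := ha1
  have hexc := hE a X D ha3 (by
    intro m hm hm2
    rw [hD]
    refine Nat.le_floor ((hC m hm).trans ?_)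
    refine mul_le_mul_of_nonneg_left ?_ (by linarith)
    refine Real.rpow_le_rpow (by positivity) ?_ (by linarith)
    have h1 : m ≤ 8664 * Z := hm2.trans (Nat.mul_le_mul_left _ h4Z)
    have h2 : (m : ℝ) ≤ ((8664 * Z : ℕ) : ℝ) := by exact_mod_cast h1
    push_cast at h2
    exact h2)
  have hsub : Set.ncard {n : ℕ | n ≤ 2 ^ a * X ∧ Sp a n ∧ #(rs (2 ^ a) n) % 2 = e} ≤
      Set.ncard {n : ℕ | n ≤ 2 ^ a * X ∧ Sp a n ∧ ((#(rs (2 ^ a) n) : ℕ) : ZMod 2) ≠ kap a} := by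
    refine Set.ncard_le_ncard ?_ ?_
    · rintro n ⟨h1, h2, h3⟩
      refine ⟨h1, h2, ?_⟩
      have : ((#(rs (2 ^ a) n) : ℕ) : ZMod 2) = ((e : ℕ) : ZMod 2) := by
        rw [ZMod.natCast_eq_natCast_iff']
        rw [h3, Nat.mod_eq_of_lt he2]
      rw [this]
      exact hek
    · exact (Set.finite_Iic (2 ^ a * X)).subset fun n hn => hn.1
  have hsE : sE (4 ^ a * X) ≤ sE Z := FIN_sE _ _ h4Z
  have hcount : Set.ncard {n : ℕ | n ≤ 2 ^ a * X ∧ Sp a n ∧ #(rs (2 ^ a) n) % 2 = e} ≤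
      (Nat.sqrt (8 * (2 ^ a * X) + 1) + 1) * sE X + 2 * D * sE Z :=
    hsub.trans (hexc.trans (Nat.add_le_add_left (Nat.mul_le_mul_left _ hsE) _))
  have hcountR : x' ^ (1 - ε / 10) ≤
      ((Nat.sqrt (8 * (2 ^ a * X) + 1) : ℕ) + 1 : ℝ) * sE X + 2 * D * sE Z := by
    rw [hXp] at hlow
    refine hlow.trans ?_
    exact_mod_cast hcount
  by_contra hcon
  push Not at hcon
  obtain ⟨hc1, hc2⟩ := hcon
  have hzx : x ≤ z := by
    have : 1 ≤ A ^ 2 := by nlinarith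
    nlinarith
  have hz1' : 1 ≤ z := hx1.trans hzx
  refine FIN_contra ε C (x * z) x' z (Nat.sqrt (8 * (2 ^ a * X) + 1) : ℕ) (sE X) (sE Z) D hε hε1
    hC1 ?_ hx'0 ?_ ?_ ?_ hc1 (by positivity) hc2 (by positivity) hz0 ?_ hDle hcountR ?_
  · nlinarith
  · rw [hx', mul_pow]
    rw [div_lt_iff₀ (by norm_num)]
    calc x * z < x * (1024 * A ^ 2 * x) := mul_lt_mul_of_pos_left hz2 hx0
      _ = A ^ 2 * x ^ 2 * 1024 := by ring
  · rw [hx', mul_pow]
    rw [le_div_iff₀ (by norm_num)]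
    calc A ^ 2 * x ^ 2 * 256 = x * (256 * A ^ 2 * x) := by ring
      _ ≤ x * z := mul_le_mul_of_nonneg_left hz1 hx0.le
  · refine Real.le_sqrt_of_sq_le ?_
    have h1 : Nat.sqrt (8 * (2 ^ a * X) + 1) ^ 2 ≤ 8 * (2 ^ a * X) + 1 := Nat.sqrt_le' _
    have h2 : (((Nat.sqrt (8 * (2 ^ a * X) + 1)) ^ 2 : ℕ) : ℝ) ≤
        ((8 * (2 ^ a * X) + 1 : ℕ) : ℝ) := by exact_mod_cast h1
    rw [Nat.cast_pow] at h2
    refine h2.trans (le_of_eq ?_)
    rw [← hXp]
    push_cast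
    ring
  · calc z = 1 * z := by ring
      _ ≤ x * z := mul_le_mul_of_nonneg_right hx1 hz0
  · refine hb2.trans_le ?_
    calc x ^ (3 * ε / 10) ≤ x ^ (17 * ε / 20) :=
          Real.rpow_le_rpow_of_exponent_le hx1 (by linarith)
      _ ≤ (x * z) ^ (17 * ε / 20) := by
          refine Real.rpow_le_rpow hx0.le ?_ (by linarith)
          calc x = x * 1 := by ring
            _ ≤ x * z := mul_le_mul_of_nonneg_left hz1' hx0.le

/-- FIN. -/
theorem FIN (hL : LOW_stmt) (hE : EXC_stmt) : RES_stmt := by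
  intro ε hε
  obtain ⟨X₀, hX₀⟩ := FIN_core hL hE (min ε (1 / 100)) (lt_min hε (by norm_num))
    (min_le_right _ _)
  refine ⟨max 1 X₀, fun X Z hX h1 h2 => ?_⟩
  have hX1 : 1 ≤ X := (le_max_left _ _).trans hX
  have hx1 : (1 : ℝ) ≤ X := by exact_mod_cast hX1
  have hle : min ε (1 / 100) ≤ ε := min_le_left _ _
  have hZ1 : (1 : ℝ) ≤ Z := (Real.one_le_rpow hx1 (by linarith)).trans h1
  have hu1 : (1 : ℝ) ≤ (X : ℝ) * Z := by nlinarith
  have h3 := hX₀ X Z ((le_max_right _ _).trans hX)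
    ((Real.rpow_le_rpow_of_exponent_le hx1 (by linarith)).trans h1) h2
  rcases h3 with h | h
  · exact Or.inl ((Real.rpow_le_rpow_of_exponent_le hu1 (by linarith)).trans h)
  · exact Or.inr ((Real.rpow_le_rpow_of_exponent_le hu1 (by linarith)).trans h)

end Pool.Agent.EP
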